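import Mathlib

/-!
The distance spectrum of a connected graph does not determine whether the graph is bipartite:
two distance-cospectral connected graphs on 20 vertices, one bipartite and one not.

* `bipG`: the path with four vertices, blown up into independent sets of sizes 3, 2, 14, 1.
* `houseG`: the house (a square with a triangle on one side), blown up into independent sets of
  sizes 8 (roof), 1, 1 (the side below the roof), 2, 8 (the opposite side).
-/

namespace Pool.Agent.Results.MP_69260a_co.TwentyVertices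

open SimpleGraph Polynomial Matrix

/-- The distance matrix of a graph, as a real matrix. -/
noncomputable def distMatrix {V : Type*} (G : SimpleGraph V) : Matrix V V ℝ :=
  Matrix.of fun u v => (G.dist u v : ℝ)

/-- The distance matrix is symmetric. -/
theorem distMatrix_isHermitian {V : Type*} (G : SimpleGraph V) :
    (distMatrix G).IsHermitian := by
  apply Matrix.IsHermitian.ext
  intro i j
  simp [distMatrix, G.dist_comm (u := i) (v := j)]

/-- The distance spectrum: the multiset of the eigenvalues of the distance matrix. -/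
noncomputable def distSpectrum {V : Type*} [Fintype V] [DecidableEq V] (G : SimpleGraph V) :
    Multiset ℝ :=
  Finset.univ.val.map (distMatrix_isHermitian G).eigenvalues

theorem distSpectrum_eq {V : Type*} [Fintype V] [DecidableEq V] {G H : SimpleGraph V}
    (h : (distMatrix G).charpoly = (distMatrix H).charpoly) :
    distSpectrum G = distSpectrum H := by
  unfold distSpectrum
  rw [((distMatrix_isHermitian G).eigenvalues_eq_eigenvalues_iff
    (distMatrix_isHermitian H)).2 h]

/-- A criterion computing the distance function of a graph. -/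
theorem dist_eq_of {V : Type*} [Nonempty V] (G : SimpleGraph V) (d : V → V → ℕ)
    (h0 : ∀ u, d u u = 0) (h1 : ∀ u w v, G.Adj u w → d u v ≤ d w v + 1)
    (h2 : ∀ u v, u ≠ v → ∃ w, G.Adj u w ∧ d w v < d u v) :
    G.Connected ∧ ∀ u v, G.dist u v = d u v := by
  have key : ∀ n, ∀ u v, d u v = n → ∃ p : G.Walk u v, p.length ≤ n := by
    intro n
    induction n using Nat.strong_induction_on with
    | _ n ih =>
      intro u v huv
      by_cases h : u = v
      · subst h
        exact ⟨Walk.nil, by simp⟩
      · obtain ⟨w, hw, hlt⟩ := h2 u v h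
        obtain ⟨p, hp⟩ := ih (d w v) (by omega) w v rfl
        exact ⟨Walk.cons hw p, by simp; omega⟩
  have hc : G.Connected := by
    rw [connected_iff]
    exact ⟨fun u v => (key _ u v rfl).choose.reachable, inferInstance⟩
  refine ⟨hc, fun u v => ?_⟩
  apply le_antisymm
  · obtain ⟨p, hp⟩ := key _ u v rfl
    exact (dist_le p).trans hp
  · obtain ⟨p, hp⟩ := hc.exists_walk_length_eq_dist u v
    rw [← hp]
    clear hp
    induction p with
    | nil => simp [h0]
    | cons h p ih => simpa using (h1 _ _ _ h).trans (by simpa using ih)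

/-- Blow-up of a relation on the classes. -/
def blow {k : ℕ} (c : Fin 20 → Fin k) (A : Fin k → Fin k → Bool)
    (hs : ∀ i j, A i j = A j i) (hl : ∀ i, A i i = false) : SimpleGraph (Fin 20) where
  Adj u v := A (c u) (c v) = true
  symm := ⟨fun u v h => by rw [hs]; exact h⟩
  loopless := ⟨fun u h => by simp [hl] at h⟩

/-- classes of the bipartite graph -/
def c1 : Fin 20 → Fin 4 := ![0, 0, 0, 1, 1, 2, 2, 2, 2, 2, 2, 2, 2, 2, 2, 2, 2, 2, 2, 3]

/-- adjacency of the classes of the bipartite graph: the path `0 - 1 - 2 - 3` -/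
def A1 : Fin 4 → Fin 4 → Bool :=
  ![![false, true, false, false], ![true, false, true, false], ![false, true, false, true],
    ![false, false, true, false]]

/-- distances between the classes (2 on the diagonal) -/
def M1 : Fin 4 → Fin 4 → ℕ := ![![2, 1, 2, 3], ![1, 2, 1, 2], ![2, 1, 2, 1], ![3, 2, 1, 2]]

/-- classes of the non-bipartite graph -/
def c2 : Fin 20 → Fin 5 := ![0, 0, 0, 0, 0, 0, 0, 0, 1, 1, 2, 2, 2, 2, 2, 2, 2, 2, 3, 4]

/-- adjacency of the classes of the non-bipartite graph: the house -/
def A2 : Fin 5 → Fin 5 → Bool :=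
  ![![false, false, false, true, true], ![false, false, true, false, true],
    ![false, true, false, true, false], ![true, false, true, false, true],
    ![true, true, false, true, false]]

/-- distances between the classes (2 on the diagonal) -/
def M2 : Fin 5 → Fin 5 → ℕ :=
  ![![2, 2, 2, 1, 1], ![2, 2, 1, 2, 1], ![2, 1, 2, 1, 2], ![1, 2, 1, 2, 1], ![1, 1, 2, 1, 2]]

/-- The bipartite graph on 20 vertices. -/
def bipG : SimpleGraph (Fin 20) := blow c1 A1 (by decide) (by decide)

/-- The non-bipartite graph on 20 vertices. -/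
def houseG : SimpleGraph (Fin 20) := blow c2 A2 (by decide) (by decide)

theorem blow_dist {k : ℕ} (c : Fin 20 → Fin k) (A : Fin k → Fin k → Bool) (M : Fin k → Fin k → ℕ)
    (hs : ∀ i j, A i j = A j i) (hl : ∀ i, A i i = false)
    (hsur : ∀ i, ∃ u, c u = i)
    (hA : ∀ i j, A i j = true → M i j = 1)
    (hpos : ∀ i j, 1 ≤ M i j)
    (h1 : ∀ i j l, A i j = true → M i l ≤ M j l + 1)
    (hd : ∀ i, M i i = 2) (hn : ∀ i, ∃ j, A i j = true)
    (h2 : ∀ i l, i ≠ l → M i l = 1 → A i l = true)
    (h3 : ∀ i l, i ≠ l → M i l ≠ 1 → ∃ j, A i j = true ∧ j ≠ l ∧ M j l < M i l) :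
    (blow c A hs hl).Connected ∧
      ∀ u v, (blow c A hs hl).dist u v = if u = v then 0 else M (c u) (c v) := by
  apply dist_eq_of
  · simp
  · intro u w v h
    have h : A (c u) (c w) = true := h
    by_cases huv : u = v
    · simp [huv]
    · rw [if_neg huv]
      by_cases hwv : w = v
      · rw [if_pos hwv, ← hwv, hA _ _ h]
      · rw [if_neg hwv]
        exact h1 _ _ _ h
  · intro u v huv
    rw [if_neg huv]
    by_cases hc : c u = c v
    · obtain ⟨j, hj⟩ := hn (c u)
      obtain ⟨w, hw⟩ := hsur j
      refine ⟨w, ?_, ?_⟩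
      · show A (c u) (c w) = true
        rw [hw]; exact hj
      · split_ifs with hwv
        · have := hpos (c u) (c v); omega
        · rw [hw, ← hc, hd]
          have : A j (c u) = true := by rw [hs]; exact hj
          rw [hA _ _ this]; norm_num
    · by_cases hm : M (c u) (c v) = 1
      · refine ⟨v, h2 _ _ hc hm, ?_⟩
        simp [hm]
      · obtain ⟨j, hj, hjl, hlt⟩ := h3 _ _ hc hm
        obtain ⟨w, hw⟩ := hsur j
        refine ⟨w, ?_, ?_⟩
        · show A (c u) (c w) = true
          rw [hw]; exact hj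
        · split_ifs with hwv
          · have := hpos (c u) (c v); omega
          · rw [hw]; exact hlt

theorem dist1 : bipG.Connected ∧
    ∀ u v, bipG.dist u v = if u = v then 0 else M1 (c1 u) (c1 v) := by
  apply blow_dist <;> decide

theorem dist2 : houseG.Connected ∧
    ∀ u v, houseG.dist u v = if u = v then 0 else M2 (c2 u) (c2 v) := by
  apply blow_dist <;> decide

theorem bip1 : bipG.IsBipartite := by
  refine ⟨Coloring.mk (fun u => if c1 u = 0 ∨ c1 u = 2 then (0 : Fin 2) else 1) ?_⟩
  intro u v h
  have h : A1 (c1 u) (c1 v) = true := h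
  revert h
  generalize c1 u = i
  generalize c1 v = j
  revert i j
  decide

theorem not_bip2 : ¬ houseG.IsBipartite := by
  rintro ⟨C⟩
  have h1 : houseG.Adj 0 18 := by show A2 (c2 0) (c2 18) = true; decide
  have h2 : houseG.Adj 0 19 := by show A2 (c2 0) (c2 19) = true; decide
  have h3 : houseG.Adj 18 19 := by show A2 (c2 18) (c2 19) = true; decide
  have e1 := C.valid h1
  have e2 := C.valid h2
  have e3 := C.valid h3
  omega

/-- Characteristic polynomial of a blown-up matrix. -/
theorem charpoly_blow {k : ℕ} (hk : k ≤ 20) (c : Fin 20 → Fin k) (M : Fin k → Fin k → ℕ)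
    (D : Matrix (Fin 20) (Fin 20) ℝ)
    (hD : ∀ u v, D u v = if u = v then 0 else (M (c u) (c v) : ℝ))
    (hd : ∀ i, M i i = 2) :
    D.charpoly = (X ^ (20 - k) * (Matrix.of fun i j : Fin k =>
      (M i j : ℝ) * ((Finset.univ.filter fun u => c u = j).card : ℝ)).charpoly).comp
        (X + C (2 : ℝ)) := by
  have e : D = (Matrix.of fun u v => (M (c u) (c v) : ℝ)) - Matrix.scalar (Fin 20) (2 : ℝ) := by
    ext u v
    rw [hD]
    by_cases h : u = v
    · subst h; simp [hd]
    · simp [h]
  rw [e, Matrix.charpoly_sub_scalar]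
  congr 1
  let U : Matrix (Fin 20) (Fin k) ℝ := Matrix.of fun u i => if c u = i then 1 else 0
  let W : Matrix (Fin k) (Fin 20) ℝ := Matrix.of fun i v => (M i (c v) : ℝ)
  have e1 : (Matrix.of fun u v => (M (c u) (c v) : ℝ)) = U * W := by
    ext u v
    simp [U, W, Matrix.mul_apply]
  have e2 : W * U = Matrix.of fun i j : Fin k =>
      (M i j : ℝ) * ((Finset.univ.filter fun u => c u = j).card : ℝ) := by
    ext i j
    simp only [U, W, Matrix.mul_apply, Matrix.of_apply, mul_ite, mul_one, mul_zero]
    rw [← Finset.sum_filter, Finset.sum_congr rfl (g := fun _ => (M i j : ℝ))]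
    · simp [mul_comm]
    · intro x hx
      rw [(Finset.mem_filter.mp hx).2]
  rw [e1, Matrix.charpoly_mul_comm_of_le _ _ (by simpa using hk), e2]
  simp

theorem p1 : (!![6, 2, 28, 3; 3, 4, 14, 2; 6, 2, 28, 1; 9, 4, 14, 2] :
      Matrix (Fin 4) (Fin 4) ℝ).charpoly =
      X ^ 4 - 40 * X ^ 3 + 129 * X ^ 2 + 384 * X - 1008 := by
  simp [Matrix.charpoly, Matrix.charmatrix, Matrix.det_succ_row_zero, Fin.sum_univ_succ,
    Fin.succAbove]
  simp only [map_ofNat]
  ring

theorem p2 : (!![16, 4, 16, 1, 1; 16, 4, 8, 2, 1; 16, 2, 16, 1, 2; 8, 4, 8, 2, 1;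
      8, 2, 16, 1, 2] : Matrix (Fin 5) (Fin 5) ℝ).charpoly =
      X * (X ^ 4 - 40 * X ^ 3 + 129 * X ^ 2 + 384 * X - 1008) := by
  simp [Matrix.charpoly, Matrix.charmatrix, Matrix.det_succ_row_zero, Fin.sum_univ_succ,
    Fin.succAbove]
  simp only [map_ofNat]
  ring

theorem s1 : (Matrix.of fun i j : Fin 4 =>
      (M1 i j : ℝ) * ((Finset.univ.filter fun u => c1 u = j).card : ℝ)) =
      !![6, 2, 28, 3; 3, 4, 14, 2; 6, 2, 28, 1; 9, 4, 14, 2] := by
  have q0 : (Finset.univ.filter fun u => c1 u = 0).card = 3 := by decide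
  have q1 : (Finset.univ.filter fun u => c1 u = 1).card = 2 := by decide
  have q2 : (Finset.univ.filter fun u => c1 u = 2).card = 14 := by decide
  have q3 : (Finset.univ.filter fun u => c1 u = 3).card = 1 := by decide
  ext i j
  fin_cases i <;> fin_cases j <;> simp [q0, q1, q2, q3, M1] <;> norm_num

theorem s2 : (Matrix.of fun i j : Fin 5 =>
      (M2 i j : ℝ) * ((Finset.univ.filter fun u => c2 u = j).card : ℝ)) =
      !![16, 4, 16, 1, 1; 16, 4, 8, 2, 1; 16, 2, 16, 1, 2; 8, 4, 8, 2, 1; 8, 2, 16, 1, 2] := by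
  have q0 : (Finset.univ.filter fun u => c2 u = 0).card = 8 := by decide
  have q1 : (Finset.univ.filter fun u => c2 u = 1).card = 2 := by decide
  have q2 : (Finset.univ.filter fun u => c2 u = 2).card = 8 := by decide
  have q3 : (Finset.univ.filter fun u => c2 u = 3).card = 1 := by decide
  have q4 : (Finset.univ.filter fun u => c2 u = 4).card = 1 := by decide
  ext i j
  fin_cases i <;> fin_cases j <;> simp [q0, q1, q2, q3, q4, M2] <;> norm_num

theorem charpoly_eq : (distMatrix bipG).charpoly = (distMatrix houseG).charpoly := by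
  rw [charpoly_blow (by norm_num) c1 M1 (distMatrix bipG) (fun u v => by
      simp [distMatrix, dist1.2]) (by decide),
    charpoly_blow (by norm_num) c2 M2 (distMatrix houseG) (fun u v => by
      simp [distMatrix, dist2.2]) (by decide), s1, s2, p1, p2]
  have e : (X ^ (20 - 4) * (X ^ 4 - 40 * X ^ 3 + 129 * X ^ 2 + 384 * X - 1008) : ℝ[X]) =
      X ^ (20 - 5) * (X * (X ^ 4 - 40 * X ^ 3 + 129 * X ^ 2 + 384 * X - 1008)) := by
    norm_num
    ring
  rw [e]

theorem result : ∃ G H : SimpleGraph (Fin 20), G.Connected ∧ H.Connected ∧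
    distSpectrum G = distSpectrum H ∧ G.IsBipartite ∧ ¬ H.IsBipartite := by
  refine ⟨bipG, houseG, dist1.1, dist2.1, ?_, bip1, not_bip2⟩
  exact distSpectrum_eq charpoly_eq

end Pool.Agent.Results.MP_69260a_co.TwentyVertices
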